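import Mathlib

set_option autoImplicit false

/-!
The graph `K_9` minus an edge fails to have the Ramsey repeated degree property.

Colouring of `K_n`, `n = 10 w`: the vertices are split into ten blocks `0, ..., 9` of `w` vertices
each. Block `0` is a red clique, the other nine blocks are blue cliques. Between two blocks the
colouring is all red, all blue, or a half graph, as listed in the table `M`. All vertices have
different degrees, except that the `i`-th vertices of blocks `3, 4` have equal degrees and the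
`i`-th vertices of blocks `5, 6, 7, 8` have equal degrees. Two vertices `x, y` of equal degree
have no common red neighbour in block `0`, and their common blue neighbours lie in block `0`
except for at most one vertex. As blocks `1, ..., 9` contain no red clique on eight vertices, no
monochromatic copy of `K_9` minus an edge contains both `x` and `y`.
-/

namespace Pool.Agent.Results.MP_6c10c0_co.NineVertexGraph

open Finset

/-- The Ramsey repeated degree property of `G`: for all sufficiently large `n`, every red/blue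
colouring of the edges of `K_n` (the red graph is `red`, the blue graph is its complement) has a
monochromatic copy of `G` with two distinct vertices of the same red degree in the coloured
`K_n`. -/
def HasRamseyRepeatedDegreeProperty {V : Type} (G : SimpleGraph V) : Prop :=
  ∃ N : ℕ, ∀ n : ℕ, N ≤ n → ∀ red : SimpleGraph (Fin n),
    ∃ C : SimpleGraph (Fin n), (C = red ∨ C = redᶜ) ∧
      ∃ f : SimpleGraph.Copy G C, ∃ u v : V, u ≠ v ∧
        (red.neighborSet (f u)).ncard = (red.neighborSet (f v)).ncard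

/-- Type of the relation between block `p` and block `q`. -/
def M : Fin 10 → Fin 10 → ℕ :=
  ![![1,0,0,0,0,0,5,0,0,1],
    ![0,0,0,1,0,1,2,3,1,4],
    ![0,0,0,0,1,1,1,1,4,1],
    ![0,1,0,0,1,1,4,1,1,1],
    ![0,0,1,1,0,4,1,1,1,1],
    ![0,1,1,1,4,0,1,1,1,1],
    ![5,3,1,4,1,1,0,1,1,1],
    ![0,2,1,1,1,1,1,0,1,1],
    ![0,1,4,1,1,1,1,1,0,1],
    ![1,4,1,1,1,1,1,1,1,0]]

/-- The relation of type `t` between the `i`-th vertex of a block and the `j`-th vertex of
another one; blocks have `w` vertices. -/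
def rel (w t i j : ℕ) : Prop :=
  t = 1 ∨ (t = 2 ∧ j < i) ∨ (t = 3 ∧ i < j) ∨ (t = 4 ∧ w ≤ i + j) ∨ (t = 5 ∧ w ≤ i + j + 1)

instance (w t i j : ℕ) : Decidable (rel w t i j) := by unfold rel; infer_instance

lemma M_symm (p q : Fin 10) :
    (M p q = 0 ∧ M q p = 0) ∨ (M p q = 1 ∧ M q p = 1) ∨ (M p q = 2 ∧ M q p = 3) ∨
    (M p q = 3 ∧ M q p = 2) ∨ (M p q = 4 ∧ M q p = 4) ∨ (M p q = 5 ∧ M q p = 5) := by
  revert p q; decide

/-- The red graph. -/
def R (w : ℕ) : SimpleGraph (Fin 10 × Fin w) where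
  Adj x y := x ≠ y ∧ rel w (M x.1 y.1) x.2 y.2
  symm := by
    constructor
    intro x y h
    refine ⟨h.1.symm, ?_⟩
    have h2 := h.2
    unfold rel at h2 ⊢
    rcases M_symm x.1 y.1 with h3 | h3 | h3 | h3 | h3 | h3 <;> rw [h3.1] at h2 <;> rw [h3.2] <;>
      omega
  loopless := ⟨fun x h => h.1 rfl⟩

lemma R_adj (w : ℕ) (x y : Fin 10 × Fin w) :
    (R w).Adj x y ↔ x ≠ y ∧ rel w (M x.1 y.1) x.2 y.2 := Iff.rfl

/-- number of `j` in relation of type `t` with `i` -/
def cnt (w t i : ℕ) : ℕ :=
  if t = 0 then 0 else if t = 1 then w else if t = 2 then i else if t = 3 then w - 1 - i else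
    if t = 4 then i else i + 1

lemma card_rel (w t i : ℕ) (ht : t ≤ 5) (hi : i < w) :
    (univ.filter (fun j : Fin w => rel w t i j)).card = cnt w t i := by
  have key : ∀ a b : ℕ, b ≤ w → (univ.filter (fun j : Fin w => a ≤ j.val ∧ j.val < b)).card
      = b - a := by
    intro a b hb
    have : (univ.filter (fun j : Fin w => a ≤ j.val ∧ j.val < b)).map Fin.valEmbedding
        = Finset.Ico a b := by
      ext x
      simp only [Finset.mem_map, Finset.mem_filter, Finset.mem_univ, true_and,
        Fin.valEmbedding_apply, Finset.mem_Ico]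
      constructor
      · rintro ⟨j, hj, rfl⟩; exact hj
      · intro hx; exact ⟨⟨x, by omega⟩, hx, rfl⟩
    rw [← Finset.card_map Fin.valEmbedding, this, Nat.card_Ico]
  have aux : ∀ (a b : ℕ), b ≤ w → (∀ j : ℕ, j < w → (rel w t i j ↔ (a ≤ j ∧ j < b))) →
      (univ.filter (fun j : Fin w => rel w t i j)).card = b - a := by
    intro a b hb h
    rw [← key a b hb]
    congr 1
    ext j
    simp only [Finset.mem_filter, Finset.mem_univ, true_and]
    exact h j.val j.isLt
  unfold cnt
  have h6 : t = 0 ∨ t = 1 ∨ t = 2 ∨ t = 3 ∨ t = 4 ∨ t = 5 := by omega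
  rcases h6 with h | h | h | h | h | h <;> subst h
  · rw [aux 0 0 (by omega) (by intro j hj; unfold rel; omega)]; simp
  · rw [aux 0 w (by omega) (by intro j hj; unfold rel; omega)]; simp
  · rw [aux 0 i (by omega) (by intro j hj; unfold rel; omega)]; simp
  · rw [aux (i+1) w (by omega) (by intro j hj; unfold rel; omega)]; simp; omega
  · rw [aux (w - i) w (by omega) (by intro j hj; unfold rel; omega)]; simp; omega
  · rw [aux (w - 1 - i) w (by omega) (by intro j hj; unfold rel; omega)]; simp; omega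

lemma M_le (p q : Fin 10) : M p q ≤ 5 := by revert p q; decide

lemma closed_count (w : ℕ) (x : Fin 10 × Fin w) :
    (univ.filter (fun y : Fin 10 × Fin w => rel w (M x.1 y.1) x.2 y.2)).card
      = ∑ q : Fin 10, cnt w (M x.1 q) x.2 := by
  rw [Finset.card_filter, Fintype.sum_prod_type]
  refine Finset.sum_congr rfl ?_
  intro q _
  rw [← card_rel w (M x.1 q) x.2 (M_le _ _) x.2.isLt, Finset.card_filter]

/-- coefficient of `w` in the degree -/
def A : Fin 10 → ℕ := ![2,4,5,6,6,7,7,7,7,8]

lemma deg_formula (w : ℕ) (x : Fin 10 × Fin w) :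
    ((R w).neighborSet x).ncard + (if x.1 = 1 then 1 else 0) = A x.1 * w + x.2 := by
  classical
  have hx : ((R w).neighborSet x) = ((univ.filter (fun y : Fin 10 × Fin w =>
      rel w (M x.1 y.1) x.2 y.2)).erase x : Finset (Fin 10 × Fin w)) := by
    ext y
    simp only [SimpleGraph.mem_neighborSet, R_adj, Finset.coe_erase, Finset.coe_filter,
      Finset.mem_univ, true_and, Set.mem_sdiff, Set.mem_ofPred_eq, Set.mem_singleton_iff]
    constructor
    · rintro ⟨h1, h2⟩; exact ⟨h2, fun h => h1 h.symm⟩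
    · rintro ⟨h1, h2⟩; exact ⟨fun h => h2 h.symm, h1⟩
  rw [hx, Set.ncard_coe_finset, Finset.card_erase_eq_ite, closed_count]
  obtain ⟨p, i⟩ := x
  have hi := i.isLt
  simp only [Finset.mem_filter, Finset.mem_univ, true_and]
  fin_cases p <;> simp [Fin.sum_univ_succ, M, A, cnt, rel] <;> omega

/-- Blocks 3, 4 have equal degrees, and so do blocks 5, 6, 7, 8. -/
def same (p q : Fin 10) : Prop :=
  (p = 3 ∧ q = 4) ∨ (p = 4 ∧ q = 3) ∨
    (p ≠ q ∧ (p = 5 ∨ p = 6 ∨ p = 7 ∨ p = 8) ∧ (q = 5 ∨ q = 6 ∨ q = 7 ∨ q = 8))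

instance (p q : Fin 10) : Decidable (same p q) := by unfold same; infer_instance

lemma same_of_deg (w : ℕ) (x y : Fin 10 × Fin w) (hne : x ≠ y)
    (h : ((R w).neighborSet x).ncard = ((R w).neighborSet y).ncard) :
    same x.1 y.1 ∧ x.2 = y.2 := by
  have hx := deg_formula w x
  have hy := deg_formula w y
  rw [h] at hx
  obtain ⟨p, i⟩ := x
  obtain ⟨q, j⟩ := y
  have hi := i.isLt
  have hj := j.isLt
  generalize ((R w).neighborSet (q, j)).ncard = D at hx hy
  have hne' : p = q → i.val ≠ j.val := by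
    intro h1 h2
    exact hne (by rw [h1, Fin.ext h2])
  have : same p q ∧ i.val = j.val := by
    simp only at hx hy hne' ⊢
    clear hne h
    generalize i.val = a at *
    generalize j.val = b at *
    fin_cases p <;> fin_cases q <;> simp [A, same] at hx hy hne' ⊢ <;> omega
  exact ⟨this.1, Fin.ext this.2⟩

/-- Labels such that two vertices outside block 0 with the same label are not red-adjacent. -/
def lab : Fin 10 → Fin 7 := ![0,0,1,1,0,2,3,4,5,6]

lemma lab_spec (p q : Fin 10) (hp : p ≠ 0) (hq : q ≠ 0) (h : lab p = lab q) : M p q = 0 := by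
  revert p q; decide

/-- A red clique with eight vertices meets block 0. -/
lemma red_clique_meets (w : ℕ) (g : Fin 8 → Fin 10 × Fin w)
    (hg : ∀ a b, a ≠ b → (R w).Adj (g a) (g b)) : ∃ a, (g a).1 = 0 := by
  by_contra hcon
  push Not at hcon
  obtain ⟨a, b, hab, h⟩ := Fintype.exists_ne_map_eq_of_card_lt (fun a : Fin 8 => lab (g a).1)
    (by simp)
  have h1 := lab_spec _ _ (hcon a) (hcon b) h
  have h2 := (hg a b hab).2
  rw [h1] at h2
  unfold rel at h2
  omega

lemma same_red (p q : Fin 10) (h : same p q) : M 0 p = 0 ∨ M 0 q = 0 := by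
  revert p q; decide

lemma same_ne (p q : Fin 10) (h : same p q) : p ≠ 0 ∧ q ≠ 0 := by
  revert p q; decide

/-- A vertex of block 0 is not red-adjacent to both vertices of an equal-degree pair. -/
lemma not_both_red (w : ℕ) (x y z : Fin 10 × Fin w) (hs : same x.1 y.1) (hz : z.1 = 0)
    (h1 : (R w).Adj z x) (h2 : (R w).Adj z y) : False := by
  have h1 := h1.2
  have h2 := h2.2
  rw [hz] at h1 h2
  unfold rel at h1 h2
  rcases same_red _ _ hs with h | h
  · rw [h] at h1; omega
  · rw [h] at h2; omega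

lemma same_blue (p q r : Fin 10) (h : same p q) (hr : r ≠ 0) (h1 : M r p ≠ 1)
    (h2 : M r q ≠ 1) : r = 1 ∧ ((M r p = 2 ∧ M r q = 3) ∨ (M r p = 3 ∧ M r q = 2)) := by
  revert p q r; decide

/-- A vertex that is blue-adjacent to both vertices of an equal-degree pair lies in block 0 or is
one particular vertex of block 1. -/
lemma both_blue (w : ℕ) (x y z : Fin 10 × Fin w) (hs : same x.1 y.1) (hxy : x.2 = y.2)
    (h1 : (R w)ᶜ.Adj z x) (h2 : (R w)ᶜ.Adj z y) : z.1 = 0 ∨ z = (1, x.2) := by
  by_cases hz : z.1 = 0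
  · exact Or.inl hz
  right
  rw [SimpleGraph.compl_adj, R_adj] at h1 h2
  have h1' : ¬ rel w (M z.1 x.1) z.2 x.2 := fun h => h1.2 ⟨h1.1, h⟩
  have h2' : ¬ rel w (M z.1 y.1) z.2 y.2 := fun h => h2.2 ⟨h2.1, h⟩
  have h3 : M z.1 x.1 ≠ 1 := fun h => h1' (Or.inl h)
  have h4 : M z.1 y.1 ≠ 1 := fun h => h2' (Or.inl h)
  obtain ⟨h5, h6⟩ := same_blue _ _ _ hs hz h3 h4
  have h7 : z.2.val = x.2.val := by
    rw [← hxy] at h2'
    unfold rel at h1' h2'
    rcases h6 with h6 | h6 <;> omega
  exact Prod.ext h5 (Fin.ext h7)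

/-- The complete graph on nine vertices with the edge between `0` and `1` removed. -/
def G : SimpleGraph (Fin 9) := (⊤ : SimpleGraph (Fin 9)).deleteEdges {s(0, 1)}

lemma G_adj (a b : Fin 9) : G.Adj a b ↔ a ≠ b ∧ ¬ (a = 0 ∧ b = 1) ∧ ¬ (a = 1 ∧ b = 0) := by
  unfold G
  rw [SimpleGraph.deleteEdges_adj, SimpleGraph.top_adj]
  simp only [Set.mem_singleton_iff, Sym2.eq_iff]
  tauto

/-- No red copy with two vertices of equal degree. -/
lemma no_red (w : ℕ) (f : Fin 9 → Fin 10 × Fin w)
    (hf : ∀ a b, G.Adj a b → (R w).Adj (f a) (f b)) (u v : Fin 9)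
    (hs : same (f u).1 (f v).1) : False := by
  have hne := same_ne _ _ hs
  have hu0 := hne.1
  have hv0 := hne.2
  -- each vertex of the copy in block 0 is one of the two special ones
  have key : ∀ z : Fin 9, (f z).1 = 0 → (G.Adj z u ∧ G.Adj z v) → False := by
    intro z hz h
    exact not_both_red w _ _ _ hs hz (hf _ _ h.1) (hf _ _ h.2)
  obtain ⟨a, ha⟩ := red_clique_meets w (fun k => f (Fin.succAbove 0 k)) (by
    intro k l hkl
    apply hf
    rw [G_adj]
    refine ⟨fun h => hkl (Fin.succAbove_right_injective h), ?_, ?_⟩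
    · rintro ⟨h, -⟩; exact Fin.succAbove_ne _ _ h
    · rintro ⟨-, h⟩; exact Fin.succAbove_ne _ _ h)
  obtain ⟨b, hb⟩ := red_clique_meets w (fun k => f (Fin.succAbove 1 k)) (by
    intro k l hkl
    apply hf
    rw [G_adj]
    refine ⟨fun h => hkl (Fin.succAbove_right_injective h), ?_, ?_⟩
    · rintro ⟨-, h⟩; exact Fin.succAbove_ne _ _ h
    · rintro ⟨h, -⟩; exact Fin.succAbove_ne _ _ h)
  have ha0 : Fin.succAbove (0 : Fin 9) a ≠ 0 := Fin.succAbove_ne _ _
  have hb1 : Fin.succAbove (1 : Fin 9) b ≠ 1 := Fin.succAbove_ne _ _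
  generalize Fin.succAbove (0 : Fin 9) a = a' at ha ha0
  generalize Fin.succAbove (1 : Fin 9) b = b' at hb hb1
  have hau : a' ≠ u := fun h => hu0 (h ▸ ha)
  have hav : a' ≠ v := fun h => hv0 (h ▸ ha)
  have hbu : b' ≠ u := fun h => hu0 (h ▸ hb)
  have hbv : b' ≠ v := fun h => hv0 (h ▸ hb)
  have ka := key a' ha
  have kb := key b' hb
  rw [G_adj, G_adj] at ka kb
  have ha1 : a' = 1 := by
    by_contra h
    exact ka ⟨⟨hau, fun h' => ha0 h'.1, fun h' => h h'.1⟩,
      ⟨hav, fun h' => ha0 h'.1, fun h' => h h'.1⟩⟩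
  exact kb ⟨⟨hbu, fun h => hau (ha1.trans h.2.symm), fun h => hb1 h.1⟩,
    ⟨hbv, fun h => hav (ha1.trans h.2.symm), fun h => hb1 h.1⟩⟩

/-- No blue copy with two vertices of equal degree. -/
lemma no_blue (w : ℕ) (f : Fin 9 → Fin 10 × Fin w) (hinj : Function.Injective f)
    (hf : ∀ a b, G.Adj a b → (R w)ᶜ.Adj (f a) (f b)) (u v : Fin 9)
    (hs : same (f u).1 (f v).1) (huv : (f u).2 = (f v).2) : False := by
  classical
  have hcard : 2 < ((univ : Finset (Fin 9)) \ {0, 1, u, v}).card := by
    have h1 : ({0, 1, u, v} : Finset (Fin 9)).card ≤ 4 := Finset.card_le_four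
    have h2 := Finset.le_card_sdiff ({0, 1, u, v} : Finset (Fin 9)) univ
    simp only [Finset.card_univ, Fintype.card_fin] at h2
    omega
  obtain ⟨a, ha, b, hb, hab, h⟩ := Finset.exists_ne_map_eq_of_card_lt_of_maps_to
    (s := (univ : Finset (Fin 9)) \ {0, 1, u, v}) (t := (univ : Finset Bool)) (f := fun a => decide ((f a).1 = 0))
    (by simpa using hcard) (fun _ _ => Finset.mem_coe.2 (Finset.mem_univ _))
  simp only [Finset.mem_sdiff, Finset.mem_univ, true_and, Finset.mem_insert,
    Finset.mem_singleton, not_or] at ha hb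
  have hG : ∀ z t : Fin 9, z ≠ 0 → z ≠ 1 → z ≠ t → (R w)ᶜ.Adj (f z) (f t) := by
    intro z t h0 h1 h2
    apply hf
    rw [G_adj]
    exact ⟨h2, fun h => h0 h.1, fun h => h1 h.1⟩
  have hA := both_blue w (f u) (f v) (f a) hs huv (hG a u ha.1 ha.2.1 ha.2.2.1)
    (hG a v ha.1 ha.2.1 ha.2.2.2)
  have hB := both_blue w (f u) (f v) (f b) hs huv (hG b u hb.1 hb.2.1 hb.2.2.1)
    (hG b v hb.1 hb.2.1 hb.2.2.2)
  have hAB := hG a b ha.1 ha.2.1 hab
  rw [SimpleGraph.compl_adj, R_adj] at hAB
  by_cases h0 : (f a).1 = 0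
  · have h0' : (f b).1 = 0 := by simpa [h0] using h
    apply hAB.2
    refine ⟨hAB.1, ?_⟩
    rw [h0, h0']
    exact Or.inl rfl
  · have h0' : ¬ (f b).1 = 0 := by simpa [h0] using h
    have h3 := hA.resolve_left h0
    have h4 := hB.resolve_left h0'
    exact hab (hinj (h3.trans h4.symm))

/-- There is a graph on nine vertices that is not isomorphic to a complete graph `K_m` with
`m ≥ 4` and that fails to have the Ramsey repeated degree property. -/
theorem result : ∃ G : SimpleGraph (Fin 9),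
    (∀ m : ℕ, 4 ≤ m → ¬ Nonempty (G ≃g (⊤ : SimpleGraph (Fin m)))) ∧
    ¬ HasRamseyRepeatedDegreeProperty G := by
  refine ⟨G, ?_, ?_⟩
  · rintro m - ⟨φ⟩
    have h1 : G.Adj 0 1 := by
      rw [← φ.map_adj_iff, SimpleGraph.top_adj]
      exact fun h => absurd (φ.injective h) (by decide)
    rw [G_adj] at h1
    exact h1.2.1 ⟨rfl, rfl⟩
  · rintro ⟨N, hN⟩
    set w := N + 1 with hw
    let e : Fin 10 × Fin w ≃ Fin (10 * w) := finProdFinEquiv
    obtain ⟨C, hC, f, u, v, huv, hdeg⟩ := hN (10 * w) (by omega) ((R w).comap e.symm)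
    have hncard : ∀ a : Fin (10 * w), (((R w).comap e.symm).neighborSet a).ncard
        = ((R w).neighborSet (e.symm a)).ncard := by
      intro a
      have : ((R w).comap e.symm).neighborSet a = e '' ((R w).neighborSet (e.symm a)) := by
        ext b
        simp only [SimpleGraph.mem_neighborSet, SimpleGraph.comap_adj, Set.mem_image]
        constructor
        · intro h; exact ⟨e.symm b, h, by simp⟩
        · rintro ⟨c, hc, rfl⟩; simpa using hc
      rw [this, Set.ncard_image_of_injective _ e.injective]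
    rw [hncard, hncard] at hdeg
    have hinj : Function.Injective (fun a => e.symm (f a)) :=
      e.symm.injective.comp f.injective
    obtain ⟨hs, hi⟩ := same_of_deg w (e.symm (f u)) (e.symm (f v))
      (fun h => huv (hinj h)) hdeg
    rcases hC with rfl | rfl
    · refine no_red w (fun a => e.symm (f a)) ?_ u v hs
      intro a b hab
      exact f.toHom.map_adj hab
    · refine no_blue w (fun a => e.symm (f a)) hinj ?_ u v hs hi
      intro a b hab
      have := f.toHom.map_adj hab
      rw [SimpleGraph.compl_adj, SimpleGraph.comap_adj] at this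
      rw [SimpleGraph.compl_adj]
      exact ⟨fun h => this.1 (e.symm.injective h), this.2⟩

end Pool.Agent.Results.MP_6c10c0_co.NineVertexGraph
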